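import Pool.Agent.helper16.LW.Spec
import Pool.Agent.helper77.ZD.CDI

/-!
# Module CDW of project lw: the cubic sum with weights
-/

set_option autoImplicit false

open Complex MeasureTheory

namespace Pool.Agent.LW

open Pool.Agent.ZD Pool.Agent.helper84.DM Pool.Agent.helper78.ED Pool.Agent.DH

theorem CDW_rho (J : ℕ) (F : ℤ → ℝ) (a b : ℝ) : rF J F (-a) * rF J F (a - b) * rF J F b =
    ∑ j ∈ IJ J, ∑ k ∈ IJ J, ∑ l ∈ IJ J, ((F j * F k * F l : ℝ) : ℂ) *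
      (CDI_e ((j : ℝ) - k) a * CDI_e ((k : ℝ) - l) b) := by
  unfold rF
  rw [Finset.sum_mul_sum, Finset.sum_mul]
  refine Finset.sum_congr rfl fun j _ => ?_
  rw [Finset.sum_mul]
  refine Finset.sum_congr rfl fun k _ => ?_
  rw [Finset.mul_sum]
  refine Finset.sum_congr rfl fun l _ => ?_
  unfold CDI_e
  have h1 : Complex.exp (-(((((j : ℝ) - k) * a : ℝ) : ℂ) * I)) *
      Complex.exp (-(((((k : ℝ) - l) * b : ℝ) : ℂ) * I)) =
      Complex.exp ((((j : ℝ) * (-a) : ℝ) : ℂ) * I) * Complex.exp ((((k : ℝ) * (a - b) : ℝ) : ℂ) * I) *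
        Complex.exp ((((l : ℝ) * b : ℝ) : ℂ) * I) := by
    rw [← Complex.exp_add, ← Complex.exp_add, ← Complex.exp_add]
    congr 1
    push_cast
    ring
  rw [h1]
  push_cast
  ring

theorem CDW : CDW_stmt := by
  intro G hG h0 J F B hB
  set W := IJ J with hW
  have e1 : ∀ a b : ℝ, rF J F (-a) * rF J F (a - b) * rF J F b * ∫ s : ℝ, G (s + a) * G (s + b) * G s =
      ∑ j ∈ W, ∑ k ∈ W, ∑ l ∈ W, ((F j * F k * F l : ℝ) : ℂ) * (CDI_e ((j : ℝ) - k) a *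
        (CDI_e ((k : ℝ) - l) b * ∫ s : ℝ, G (s + a) * G (s + b) * G s)) := by
    intro a b
    rw [CDW_rho, Finset.sum_mul]
    refine Finset.sum_congr rfl fun t₁ _ => ?_
    rw [Finset.sum_mul]
    refine Finset.sum_congr rfl fun t₂ _ => ?_
    rw [Finset.sum_mul]
    refine Finset.sum_congr rfl fun t₃ _ => ?_
    ring
  have ib : ∀ (j k l : ℤ) (a : ℝ), Integrable (fun b : ℝ => ((F j * F k * F l : ℝ) : ℂ) *
      (CDI_e ((j : ℝ) - k) a * (CDI_e ((k : ℝ) - l) b * ∫ s : ℝ, G (s + a) * G (s + b) * G s))) :=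
    fun j k l a => ((CDI_ib hG h0 ((k : ℝ) - l) a).const_mul _).const_mul _
  have e2 : ∀ a : ℝ, ∫ b : ℝ, rF J F (-a) * rF J F (a - b) * rF J F b *
      ∫ s : ℝ, G (s + a) * G (s + b) * G s =
      ∑ j ∈ W, ∑ k ∈ W, ∑ l ∈ W, (((F j * F k * F l : ℝ) : ℂ) * B ((k : ℝ) - l)) *
        (CDI_e ((j : ℝ) - k) a * ∫ s : ℝ, G (s + a) * G s * CDI_e ((k : ℝ) - l) (-s)) := by
    intro a
    simp_rw [e1]
    rw [integral_finsetSum _ fun t₁ _ => integrable_finsetSum _ fun t₂ _ =>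
      integrable_finsetSum _ fun t₃ _ => ib t₁ t₂ t₃ a]
    refine Finset.sum_congr rfl fun t₁ _ => ?_
    rw [integral_finsetSum _ fun t₂ _ => integrable_finsetSum _ fun t₃ _ => ib t₁ t₂ t₃ a]
    refine Finset.sum_congr rfl fun t₂ _ => ?_
    rw [integral_finsetSum _ fun t₃ _ => ib t₁ t₂ t₃ a]
    refine Finset.sum_congr rfl fun t₃ _ => ?_
    rw [integral_const_mul, integral_const_mul, CDI_vb hG h0 hB]
    ring
  have ia : ∀ (j k l : ℤ), Integrable (fun a : ℝ => (((F j * F k * F l : ℝ) : ℂ) * B ((k : ℝ) - l)) *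
        (CDI_e ((j : ℝ) - k) a * ∫ s : ℝ, G (s + a) * G s * CDI_e ((k : ℝ) - l) (-s))) := fun j k l =>
    (CDI_ia hG h0 ((j : ℝ) - k) ((k : ℝ) - l)).const_mul _
  simp_rw [e2]
  rw [integral_finsetSum _ fun t₁ _ => integrable_finsetSum _ fun t₂ _ =>
    integrable_finsetSum _ fun t₃ _ => ia t₁ t₂ t₃]
  refine Finset.sum_congr rfl fun t₁ _ => ?_
  rw [integral_finsetSum _ fun t₂ _ => integrable_finsetSum _ fun t₃ _ => ia t₁ t₂ t₃]
  refine Finset.sum_congr rfl fun t₂ _ => ?_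
  rw [integral_finsetSum _ fun t₃ _ => ia t₁ t₂ t₃]
  refine Finset.sum_congr rfl fun t₃ _ => ?_
  rw [integral_const_mul, CDI_va hG h0 hB ((t₁ : ℝ) - t₂) ((t₂ : ℝ) - t₃) ((t₃ : ℝ) - t₁) (by ring)]
  ring

end Pool.Agent.LW
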